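import Pool.Agent.Lib.MP_92d903_ag.FIN
import Pool.Agent.Lib.MP_92d903_ag.GAP

/-!
# The algebraic Sato-Tate conjecture: reduction to `ℚ` and to Tate classes

Motives are given by their realisations (`Rlz`): a basis `ι` of the Betti realisation, the weight, the rational matrix of a
polarisation, and for every prime `ℓ` the Galois representation on `ℚ_ℓ ^ ι`.  `Motives` and `Classical` describe the
category of the problem (André motives, or motives for absolute Hodge cycles): its data and its properties, each of which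
is a theorem for these categories.
-/

set_option autoImplicit false
set_option linter.unusedSectionVars false

open Matrix Pool.Agent.Lib.MP_92d903_ag

namespace Pool.Agent.Results.MP_92d903_ag.SatoTateOverQ

section Gen

variable {Γ Γ' : Type} [Group Γ] [Group Γ'] {F : Type} [Field F] {ι κ : Type} [Fintype ι] [DecidableEq ι]
  [Fintype κ] [DecidableEq κ]

/-- the matrix `ρ(γ)` -/
def mx (ρ : Γ →* GL ι F) (γ : Γ) : Matrix ι ι F := (ρ γ : Matrix ι ι F)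

/-- the extension of scalars of the subspace `W` is stable under the matrices in `S` -/
def Stab (S : Set (Matrix ι ι (AlgebraicClosure F))) (W : Submodule F (ι → F)) : Prop :=
  ∀ g ∈ S, ∀ u ∈ ext W, g *ᵥ u ∈ ext W

/-- `G_1` is reductive: its representation on `F ^ ι` (faithful, characteristic `0`) is semisimple -/
def Reductive (ρ : Γ →* GL ι F) (φ : Matrix ι ι ℚ) : Prop :=
  ∀ W : Submodule F (ι → F), Stab (G1 ρ φ) W → ∃ W' : Submodule F (ι → F), IsCompl W W' ∧ Stab (G1 ρ φ) W'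

/-- the subspace `W` is stable under `ρ` -/
def Inv (ρ : Γ →* GL ι F) (W : Submodule F (ι → F)) : Prop := ∀ γ, ∀ u ∈ W, mx ρ γ *ᵥ u ∈ W

/-- the representation `ρ` is semisimple -/
def Semisimple (ρ : Γ →* GL ι F) : Prop :=
  ∀ W : Submodule F (ι → F), Inv ρ W → ∃ W' : Submodule F (ι → F), IsCompl W W' ∧ Inv ρ W'

/-- `ρ` multiplies the form `φ` by a character, trivial if the weight `w` is `0` -/
def Mult (ρ : Γ →* GL ι F) (φ : Matrix ι ι ℚ) (w : ℤ) : Prop :=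
  ∀ γ, ∃ c : F, (w = 0 → c = 1) ∧ (mx ρ γ)ᵀ * rm F φ * mx ρ γ = c • rm F φ

/-- the homotheties are in the Zariski closure of the image of `ρ` -/
def Homoth (ρ : Γ →* GL ι F) : Prop :=
  ∀ c : AlgebraicClosure F, c ≠ 0 → c • (1 : Matrix ι ι (AlgebraicClosure F)) ∈ Zar ρ

/-- `ρ'` is `ρ` after the renaming `e` of the basis -/
def Same (e : κ ≃ ι) (ρ' : Γ →* GL κ F) (ρ : Γ →* GL ι F) : Prop :=
  ∀ γ i j, mx ρ' γ i j = mx ρ γ (e i) (e j)

/-- the image of `ρ'` is contained in the image of `ρ` (after the renaming `e`) -/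
def Below (e : κ ≃ ι) (ρ' : Γ' →* GL κ F) (ρ : Γ →* GL ι F) : Prop :=
  ∀ γ', ∃ γ, ∀ i j, mx ρ' γ' i j = mx ρ γ (e i) (e j)

/-- the image of `ρ` is contained in the image of `ρ'` (after the renaming `e`) -/
def Above (e : κ ≃ ι) (ρ' : Γ' →* GL κ F) (ρ : Γ →* GL ι F) : Prop :=
  ∀ γ, ∃ γ', ∀ i j, mx ρ' γ' i j = mx ρ γ (e i) (e j)

/-- `A` and `B` commute with the action of `Γ` through `h` -/
def Twine (h : Γ →* Γ') (A : Matrix κ ι ℚ) (B : Matrix ι κ ℚ) (ρ : Γ → Matrix ι ι F) (ρ' : Γ' →* GL κ F) : Prop :=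
  ∀ γ, mx ρ' (h γ) * rm F A = rm F A * ρ γ ∧ rm F B * mx ρ' (h γ) = ρ γ * rm F B

/-- the `(ι, ι)` block of `ρ'(g)` is `0` outside of the subgroup `h(Γ)` -/
def Off (h : Γ →* Γ') (A : Matrix κ ι ℚ) (B : Matrix ι κ ℚ) (ρ' : Γ' →* GL κ F) : Prop :=
  ∀ g, g ∉ h.range → rm F B * mx ρ' g * rm F A = 0

end Gen

/-- **the algebraic Sato-Tate conjecture for `M` and the prime `ℓ`**: the group `G_1` is reductive and is the base change of an
algebraic group over `ℚ` (given by the ideal `J`) -/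
def AST {Γ : Type} [Group Γ] (ℓ : ℕ) [Fact ℓ.Prime] (M : Rlz Γ) : Prop :=
  ∃ J : Ideal (MvPolynomial (M.ι × M.ι) ℚ),
    I1 (M.ρ ℓ) M.φ = J.map (MvPolynomial.map (Rat.castHom ℚ_[ℓ])) ∧ Reductive (M.ρ ℓ) M.φ

/-- **the algebraic Sato-Tate conjecture for `M`**, second reading: one algebraic group over `ℚ` for all `ℓ` -/
def ASTOne {Γ : Type} [Group Γ] (M : Rlz Γ) : Prop :=
  ∃ J : Ideal (MvPolynomial (M.ι × M.ι) ℚ), ∀ (ℓ : ℕ) [Fact ℓ.Prime],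
    I1 (M.ρ ℓ) M.φ = J.map (MvPolynomial.map (Rat.castHom ℚ_[ℓ])) ∧ Reductive (M.ρ ℓ) M.φ

/-- the `ℓ`-adic representation is semisimple and the Tate classes (fixed vectors) are spanned by rational vectors -/
def TateRat {Γ : Type} [Group Γ] (ℓ : ℕ) [Fact ℓ.Prime] (M : Rlz Γ) : Prop := Semisimple (M.ρ ℓ) ∧ TC (M.ρ ℓ)

/-- the space of the rational vectors that are Tate classes does not depend on `ℓ` -/
def TateIndep {Γ : Type} [Group Γ] (M : Rlz Γ) : Prop :=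
  ∀ (ℓ : ℕ) [Fact ℓ.Prime] (ℓ' : ℕ) [Fact ℓ'.Prime], Tr (M.ρ ℓ) = Tr (M.ρ ℓ')

/-- the `ℓ`-adic representation is semisimple and the Tate classes are spanned by the given subspace `A` of rational classes -/
def TateFor {Γ : Type} [Group Γ] (ℓ : ℕ) [Fact ℓ.Prime] (M : Rlz Γ) (A : Submodule ℚ (M.ι → ℚ)) : Prop :=
  Semisimple (M.ρ ℓ) ∧ ∀ v : M.ι → ℚ_[ℓ], (∀ γ, mx (M.ρ ℓ) γ *ᵥ v = v) →
    v ∈ Submodule.span ℚ_[ℓ] ((fun (u : M.ι → ℚ) (i : M.ι) => (u i : ℚ_[ℓ])) '' (A : Set (M.ι → ℚ)))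

/-- polarisations: nondegenerate, multiplied by a character -/
def FPol (T : Motives) : Prop :=
  ∀ k, ∀ M ∈ T.Mot k, IsUnit M.φ.det ∧ ∀ (ℓ : ℕ) [Fact ℓ.Prime], Mult (M.ρ ℓ) M.φ M.w

/-- homotheties (a consequence of the Weil conjectures): in weight `≠ 0` they are in the Zariski closure of the image -/
def FHomoth (T : Motives) : Prop := ∀ k, ∀ M ∈ T.Mot k, M.w ≠ 0 → ∀ (ℓ : ℕ) [Fact ℓ.Prime], Homoth (M.ρ ℓ)

/-- tensor powers -/
def FTensor (T : Motives) : Prop :=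
  ∀ k, ∀ M ∈ T.Mot k, ∀ a : ℕ, ∃ N ∈ T.Mot k, ∃ e : N.ι ≃ (Fin a → M.ι), ∀ (ℓ : ℕ) [Fact ℓ.Prime],
    Same e (N.ρ ℓ) (tens a (M.ρ ℓ))

/-- the direct sum of the unit motive and a motive of weight `0` -/
def FUnit (T : Motives) : Prop :=
  ∀ k, ∀ M ∈ T.Mot k, M.w = 0 → ∃ N ∈ T.Mot k, ∃ e : N.ι ≃ Option M.ι, ∀ (ℓ : ℕ) [Fact ℓ.Prime],
    Same e (N.ρ ℓ) (opr (M.ρ ℓ))

/-- specialisation (Serre): for every `ℓ` there is a closed point of a model of `k`, with the same `ℓ`-adic image; for all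
primes the image at the closed point is contained in the image over `k` -/
def FSpec (T : Motives) : Prop :=
  ∀ k, ∀ M ∈ T.Mot k, ∀ (ℓ : ℕ) [Fact ℓ.Prime], ∃ k', T.Num k' ∧ ∃ N ∈ T.Mot k', ∃ e : N.ι ≃ M.ι,
    (∀ (ℓ' : ℕ) [Fact ℓ'.Prime], Below e (N.ρ ℓ') (M.ρ ℓ')) ∧ Above e (N.ρ ℓ) (M.ρ ℓ)

/-- induction from a number field to `ℚ`: `M` is a block of `N` -/
def FInd (T : Motives) : Prop :=
  ∀ k, T.Num k → ∀ M ∈ T.Mot k, ∃ N ∈ T.Mot T.Q, ∃ (A : Matrix N.ι M.ι ℚ) (B : Matrix M.ι N.ι ℚ) (h : T.Γ k →* T.Γ T.Q),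
    B * A = 1 ∧ h.range.FiniteIndex ∧ ∀ (ℓ : ℕ) [Fact ℓ.Prime], Twine h A B (mx (M.ρ ℓ)) (N.ρ ℓ) ∧ Off h A B (N.ρ ℓ)

/-- for every motive `M` over `ℚ` the motive `End(M)` is a direct summand of some `h^(2r)(X)(r)` -/
def FEnd (T : Motives) : Prop :=
  ∀ M ∈ T.Mot T.Q, ∃ N ∈ T.Tate, ∃ (A : Matrix N.ι (M.ι × M.ι) ℚ) (B : Matrix (M.ι × M.ι) N.ι ℚ),
    B * A = 1 ∧ ∀ (ℓ : ℕ) [Fact ℓ.Prime], Twine (MonoidHom.id (T.Γ T.Q)) A B (endo (M.ρ ℓ)) (N.ρ ℓ)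

/-- the motives `h^(2r)(X)(r)` are pure of weight `0`, and for `N = h^(2r)(X)(r)` the direct sum of the unit motive and `N`
is `h^(2r)(Y)(r)`, `Y` the disjoint union of `X` and the projective space of dimension `r` -/
def FTate (T : Motives) : Prop :=
  ∀ N ∈ T.Tate, N ∈ T.Mot T.Q ∧ N.w = 0 ∧ ∃ U ∈ T.Tate, ∃ e : U.ι ≃ Option N.ι, ∀ (ℓ : ℕ) [Fact ℓ.Prime],
    Same e (U.ρ ℓ) (opr (N.ρ ℓ))

/-- the properties of the category of motives (for André motives and for motives for absolute Hodge cycles each of them is a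
theorem) -/
structure Classical (T : Motives) : Prop where
  pol : FPol T
  homoth : FHomoth T
  tensor : FTensor T
  unit : FUnit T
  spec : FSpec T
  ind : FInd T
  tate : FTate T
  endm : FEnd T

theorem facts {T : Motives} (h : Classical T) : Facts T where
  pol k M hM := ⟨(h.pol k M hM).1, fun ℓ _ => (h.pol k M hM).2 ℓ⟩
  homoth k M hM hw ℓ _ := h.homoth k M hM hw ℓ
  tensor k M hM a := by
    obtain ⟨N, hN, e, he⟩ := h.tensor k M hM a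
    exact ⟨N, hN, e, fun ℓ _ => he ℓ⟩
  unit k M hM hw := by
    obtain ⟨N, hN, e, he⟩ := h.unit k M hM hw
    exact ⟨N, hN, e, fun ℓ _ => he ℓ⟩
  spec k M hM ℓ _ := by
    obtain ⟨k', hk', N, hN, e, h1, h2⟩ := h.spec k M hM ℓ
    exact ⟨k', hk', N, hN, e, fun ℓ' _ => h1 ℓ', h2⟩
  ind k hk M hM := by
    obtain ⟨N, hN, A, B, f, hBA, hf, h1⟩ := h.ind k hk M hM
    exact ⟨N, hN, A, B, f, hBA, hf, fun ℓ _ => (h1 ℓ).1, fun ℓ _ => (h1 ℓ).2⟩
  tate N hN := ⟨(h.tate N hN).1, (h.tate N hN).2.1⟩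
  endm M hM := by
    obtain ⟨N, hN, A, B, hBA, h1⟩ := h.endm M hM
    exact ⟨N, hN, A, B, hBA, fun ℓ _ => h1 ℓ⟩

theorem ut {T : Motives} (h : Classical T) : UT T := by
  intro N hN
  obtain ⟨_, _, U, hU, e, he⟩ := h.tate N hN
  exact ⟨U, hU, e, fun ℓ _ => he ℓ⟩

/-- `Mc N` consists of the spaces of the motivated (absolute Hodge) classes of the motives `h^(2r)(X)(r)` with the realisations
`N`; motivated (absolute Hodge) classes over `ℚ` are Tate classes -/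
def Classes (T : Motives) (Mc : ∀ N : Rlz (T.Γ T.Q), Set (Submodule ℚ (N.ι → ℚ))) : Prop :=
  ∀ N ∈ T.Tate, (Mc N).Nonempty ∧ ∀ A ∈ Mc N, ∀ (ℓ : ℕ) [Fact ℓ.Prime], (A : Set (N.ι → ℚ)) ⊆ Tr (N.ρ ℓ)

/-- **The algebraic Sato-Tate conjecture (Q1) for all pure motives over all finitely generated fields of characteristic `0`
is equivalent to Q1 for the motives `h^(2r)(X)(r)`, `X` smooth projective over `ℚ`** (by the Lefschetz theorems the
properties of `Tate` in `Classical` hold also for the smaller set given by the `X` of dimension `2r`), and also to: for all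
these `X`, `r` the Galois representation `H^(2r)(X, ℚ_ℓ(r))` is semisimple and its Tate classes are spanned by classes in
`H^(2r)(X(ℂ), ℚ(r))`.  This holds for every prime `ℓ` separately, and for one algebraic group for all `ℓ`, with the condition
that the space of these rational classes does not depend on `ℓ`.  **The gap to the motivic Tate conjecture**: the Tate
conjecture (with semisimplicity) for motivated (absolute Hodge) classes is equivalent to the algebraic Sato-Tate conjecture together with: every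
rational class that is a Tate class is motivated (absolute Hodge). -/
theorem result (T : Motives) (hT : Classical T) (Mc : ∀ N : Rlz (T.Γ T.Q), Set (Submodule ℚ (N.ι → ℚ)))
    (hMc : Classes T Mc) :
    (∀ (ℓ : ℕ) [Fact ℓ.Prime], ((∀ k, ∀ M ∈ T.Mot k, AST ℓ M) ↔ ∀ N ∈ T.Tate, AST ℓ N) ∧
      ((∀ N ∈ T.Tate, AST ℓ N) ↔ ∀ N ∈ T.Tate, TateRat ℓ N) ∧
      ((∀ N ∈ T.Tate, ∀ A ∈ Mc N, TateFor ℓ N A) ↔
        (∀ k, ∀ M ∈ T.Mot k, AST ℓ M) ∧ ∀ N ∈ T.Tate, ∀ A ∈ Mc N, Tr (N.ρ ℓ) = A)) ∧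
    ((∀ k, ∀ M ∈ T.Mot k, ASTOne M) ↔ ∀ N ∈ T.Tate, ASTOne N) ∧
      ((∀ N ∈ T.Tate, ASTOne N) ↔ ∀ N ∈ T.Tate, (∀ (ℓ : ℕ) [Fact ℓ.Prime], TateRat ℓ N) ∧ TateIndep N) ∧
      ((∀ N ∈ T.Tate, ∀ A ∈ Mc N, ∀ (ℓ : ℕ) [Fact ℓ.Prime], TateFor ℓ N A) ↔
        (∀ k, ∀ M ∈ T.Mot k, ASTOne M) ∧ ∀ N ∈ T.Tate, ∀ A ∈ Mc N, ∀ (ℓ : ℕ) [Fact ℓ.Prime], Tr (N.ρ ℓ) = A) := by
  have hg : ∀ (ℓ : ℕ) [Fact ℓ.Prime], ∀ N ∈ T.Tate, ∀ A ∈ Mc N, TateFor ℓ N A ↔ TateRat ℓ N ∧ Tr (N.ρ ℓ) = A := by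
    intro ℓ _ N hN A hA
    have h := gap (N.ρ ℓ) A fun v hv => (hMc N hN).2 A hA ℓ hv
    exact ⟨fun h1 => ⟨⟨h1.1, (h.1 h1.2).1⟩, (h.1 h1.2).2⟩, fun h1 => ⟨h1.1.1, h.2 ⟨h1.1.2, h1.2⟩⟩⟩
  have hw := fun (ℓ : ℕ) [Fact ℓ.Prime] => main_w (facts hT) (ut hT) ℓ
  have hs := main_s (facts hT) (ut hT)
  refine ⟨fun ℓ _ => ⟨(hw ℓ).1, (hw ℓ).2,
    ⟨fun h => ⟨?_, fun N hN A hA => ((hg ℓ N hN A hA).1 (h N hN A hA)).2⟩, fun h N hN A hA => ?_⟩⟩,
    hs.1, hs.2, ⟨fun h => ⟨?_, fun N hN A hA ℓ _ => ((hg ℓ N hN A hA).1 (h N hN A hA ℓ)).2⟩, fun h N hN A hA ℓ _ => ?_⟩⟩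
  · refine (hw ℓ).1.2 ((hw ℓ).2.2 fun N hN => ?_)
    obtain ⟨A, hA⟩ := (hMc N hN).1
    exact ((hg ℓ N hN A hA).1 (h N hN A hA)).1
  · exact (hg ℓ N hN A hA).2 ⟨(hw ℓ).2.1 ((hw ℓ).1.1 h.1) N hN, h.2 N hN A hA⟩
  · refine hs.1.2 (hs.2.2 fun N hN => ?_)
    obtain ⟨A, hA⟩ := (hMc N hN).1
    refine ⟨fun ℓ _ => ((hg ℓ N hN A hA).1 (h N hN A hA ℓ)).1, fun ℓ _ ℓ' _ => ?_⟩
    rw [((hg ℓ N hN A hA).1 (h N hN A hA ℓ)).2, ((hg ℓ' N hN A hA).1 (h N hN A hA ℓ')).2]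
  · exact (hg ℓ N hN A hA).2 ⟨(hs.2.1 (hs.1.1 h.1) N hN).1 ℓ, h.2 N hN A hA ℓ⟩

end Pool.Agent.Results.MP_92d903_ag.SatoTateOverQ
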